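import Pool.Agent.P8H47.FP.Stm6
set_option autoImplicit false

/-!
Packages PAR3 and IDX of the project FQ: the index of the radical of a Steinberg symbol.
-/

namespace Pool.Agent.P8H1.FQ

open Pool.Agent.P8H47.FP

theorem idx : S_IDX := by
  intro F _ M hM h0
  have : M.FiniteIndex := ⟨h0⟩
  have hp : IsPGroup 2 (Fˣ ⧸ M) := by
    intro g
    induction g using QuotientGroup.induction_on with
    | H x =>
      refine ⟨1, ?_⟩
      rw [pow_one, ← QuotientGroup.mk_pow, QuotientGroup.eq_one_iff, sq]
      exact hM x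
  obtain ⟨r, hr⟩ := IsPGroup.iff_card.1 hp
  exact ⟨r, by rw [Subgroup.index, hr]⟩

section

variable {F : Type} [Field F] {B : Fˣ → Fˣ → ZMod 2} (hB : IsSymb B)

include hB

theorem one_left (x : Fˣ) : B 1 x = 0 := by
  have h := hB.left 1 1 x
  rw [mul_one] at h
  linear_combination -h

omit [Field F] hB in
theorem two_mul_zero (a : ZMod 2) : a + a = 0 := by
  revert a
  decide

theorem inv_left (a x : Fˣ) : B a⁻¹ x = B a x := by
  have h := hB.left a a⁻¹ x
  rw [mul_inv_cancel, one_left hB] at h
  have h2 := two_mul_zero (B a x)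
  linear_combination -h - h2

theorem pow_left (a x : Fˣ) (n : ℕ) : B (a ^ n) x = (n : ZMod 2) * B a x := by
  induction n with
  | zero => rw [pow_zero, one_left hB, Nat.cast_zero, zero_mul]
  | succ n ih =>
    rw [pow_succ, hB.left, ih, Nat.cast_succ]
    ring

theorem neg_self (x : Fˣ) : B x (-x) = 0 := by
  by_cases h1 : x = 1
  · rw [h1]
    exact one_left hB _
  · have hx1 : (1 : F) - x ≠ 0 := fun h => h1 (Units.ext (by
      rw [Units.val_one]
      linear_combination -h))
    have hxi : (1 : F) - (x⁻¹ : Fˣ) ≠ 0 := fun h => h1 (by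
      have h2 : (x⁻¹ : Fˣ) = 1 := Units.ext (by
        rw [Units.val_one]
        linear_combination -h)
      exact inv_eq_one.1 h2)
    have e1 : B x (Units.mk0 _ hx1) = 0 := hB.st _ _ (by
      rw [Units.val_mk0]
      ring)
    have e2 : B x⁻¹ (Units.mk0 _ hxi) = 0 := hB.st _ _ (by
      rw [Units.val_mk0]
      ring)
    have e3 : -x * Units.mk0 _ hxi = Units.mk0 _ hx1 := by
      ext
      rw [Units.val_mul, Units.val_mk0, Units.val_mk0, Units.val_neg, mul_sub, mul_one]
      have : (-(x : F)) * (x⁻¹ : Fˣ) = -1 := by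
        rw [neg_mul, Units.mul_inv]
      rw [this]
      ring
    rw [inv_left hB] at e2
    have e4 := hB.left (-x) (Units.mk0 _ hxi) x
    rw [e3, hB.symm _ x, e1, hB.symm _ x, hB.symm (Units.mk0 _ hxi) x, e2, add_zero] at e4
    exact e4.symm

theorem self_eq (x : Fˣ) : B x x = B x (-1) := by
  have h := neg_self hB x
  have h2 := hB.left x (-1) x
  rw [mul_neg_one, hB.symm (-x) x, h, hB.symm (-1) x] at h2
  have h3 := two_mul_zero (B x (-1))
  linear_combination -h2 - h3

end

theorem par3 : S_PAR3 := by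
  intro F _ B M hB hM h11 h8
  have hdec : ∀ a : ZMod 2, a ≠ 0 → a = 1 := by decide
  -- the vector `c`
  obtain ⟨c, hcM, hcc, hk⟩ : ∃ c : Fˣ, c ∉ M ∧ B c c = 0 ∧ ∀ k, B k c = 0 → B k k = 0 := by
    by_cases h : (-1 : Fˣ) ∈ M
    · have h2 : ∃ c : Fˣ, c ∉ M := by
        by_contra hcon
        push Not at hcon
        have : M = ⊤ := by
          rw [eq_top_iff]
          intro x _
          exact hcon x
        rw [this, Subgroup.index_top] at h8
        omega
      obtain ⟨c, hc⟩ := h2
      have h3 : ∀ x, B x x = 0 := by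
        intro x
        rw [self_eq hB, hB.symm]
        exact (hM (-1)).1 h x
      exact ⟨c, hc, h3 c, fun k _ => h3 k⟩
    · exact ⟨-1, h, h11, fun k hk => by rw [self_eq hB, hk]⟩
  obtain ⟨x, hx⟩ : ∃ x, B c x ≠ 0 := by
    by_contra hcon
    push Not at hcon
    exact hcM ((hM c).2 hcon)
  have hcx := hdec _ hx
  -- the vector `k`
  let g : Fˣ →* Multiplicative (ZMod 2 × ZMod 2) :=
    { toFun := fun v => Multiplicative.ofAdd (B v c, B v x)
      map_one' := by
        rw [one_left hB, one_left hB]
        rfl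
      map_mul' := fun v w => by
        rw [hB.left, hB.left]
        rfl }
  obtain ⟨k, hkg, hkM⟩ : ∃ k, k ∈ g.ker ∧ k ∉ M := by
    by_contra hcon
    push Not at hcon
    have h1 : M.index ∣ g.ker.index := Subgroup.index_dvd_of_le hcon
    rw [Subgroup.index_ker, h8] at h1
    have h2 : Nat.card g.range ∣ Nat.card (Multiplicative (ZMod 2 × ZMod 2)) :=
      Subgroup.card_subgroup_dvd_card _
    have h3 : Nat.card (Multiplicative (ZMod 2 × ZMod 2)) = 4 := by
      rw [Nat.card_eq_fintype_card]
      rfl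
    rw [h3] at h2
    have h4 := Nat.le_of_dvd (by norm_num) (h1.trans h2)
    omega
  have hkc : B k c = 0 ∧ B k x = 0 := by
    have h1 : g k = 1 := hkg
    have h2 : ((B k c, B k x) : ZMod 2 × ZMod 2) = (0, 0) := h1
    exact Prod.mk_inj.1 h2
  have hkk := hk k hkc.1
  obtain ⟨y, hy⟩ : ∃ y, B k y ≠ 0 := by
    by_contra hcon
    push Not at hcon
    exact hkM ((hM k).2 hcon)
  have hky := hdec _ hy
  -- the map to the group of order 16
  let f : Fˣ →* Multiplicative ((ZMod 2 × ZMod 2) × (ZMod 2 × ZMod 2)) :=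
    { toFun := fun v => Multiplicative.ofAdd ((B v c, B v x), (B v k, B v y))
      map_one' := by
        rw [one_left hB, one_left hB, one_left hB, one_left hB]
        rfl
      map_mul' := fun v w => by
        rw [hB.left, hB.left, hB.left, hB.left]
        rfl }
  have hMf : M ≤ f.ker := by
    intro v hv
    have h1 := (hM v).1 hv
    show Multiplicative.ofAdd ((B v c, B v x), (B v k, B v y)) = _
    rw [h1, h1, h1, h1]
    rfl
  have hsurj : Function.Surjective f := by
    intro t
    obtain ⟨⟨p, q⟩, r, s⟩ := t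
    have hv : ∀ (a : ZMod 2) (u w : Fˣ), B (u ^ a.val) w = a * B u w := by
      intro a u w
      rw [pow_left hB, ZMod.natCast_zmod_val]
    set be : ZMod 2 := p - r * B c y with hbe
    set al : ZMod 2 := q - be * B x x - r * B x y with hal
    set ga : ZMod 2 := s - al * B c y - be * B x y - r * B y y with hga
    refine ⟨c ^ al.val * x ^ be.val * k ^ ga.val * y ^ r.val, ?_⟩
    have key : ∀ w, B (c ^ al.val * x ^ be.val * k ^ ga.val * y ^ r.val) w =
        al * B c w + be * B x w + ga * B k w + r * B y w := by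
      intro w
      rw [hB.left, hB.left, hB.left, hv, hv, hv, hv]
    show ((B _ c, B _ x), (B _ k, B _ y)) = ((p, q), (r, s))
    rw [key, key, key, key, hB.symm x c, hB.symm y c, hB.symm y x, hB.symm c k, hB.symm x k,
      hB.symm y k, hcc, hcx, hkc.1, hkc.2, hkk, hky]
    refine Prod.ext (Prod.ext ?_ ?_) (Prod.ext ?_ ?_) <;> simp only
    · rw [hbe]
      ring
    · rw [hal]
      ring
    · ring
    · rw [hga]
      ring
  have h1 := Subgroup.index_dvd_of_le hMf
  rw [Subgroup.index_ker, MonoidHom.range_eq_top.2 hsurj, Subgroup.card_top, h8] at h1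
  have h3 : Nat.card (Multiplicative ((ZMod 2 × ZMod 2) × (ZMod 2 × ZMod 2))) = 16 := by
    rw [Nat.card_eq_fintype_card]
    rfl
  rw [h3] at h1
  omega

end Pool.Agent.P8H1.FQ
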